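import Pool.Agent.NDR.StmtsG

/-!
Squad NDR (MP_b48657_ag), block G, row SPI: injectivity of `x_r - c`.
-/

set_option autoImplicit false

namespace Pool.Agent.NDR.H94

open Finset Pool.Agent.NDR

section kdl

variable {T R R' : Type} [CommRing R] [CommRing R']

theorem kd_map (φ : R →+* R') (a : T → R) (S : Finset T) (x : Finset T → R) (U : Finset T) :
    φ (kd a S x U) = kd (fun j => φ (a j)) S (fun V => φ (x V)) U := by
  unfold kd
  rw [map_sum]
  refine Finset.sum_congr rfl fun j _ => ?_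
  rw [map_zsmul, map_mul]

theorem kd_sub (a : T → R) (S : Finset T) (x y : Finset T → R) (U : Finset T) :
    kd a S (fun V => x V - y V) U = kd a S x U - kd a S y U := by
  unfold kd
  rw [← Finset.sum_sub_distrib]
  refine Finset.sum_congr rfl fun j _ => ?_
  rw [mul_sub, smul_sub]

theorem kd_mul_left (a : T → R) (S : Finset T) (c : R) (x : Finset T → R) (U : Finset T) :
    kd a S (fun V => c * x V) U = c * kd a S x U := by
  unfold kd
  rw [Finset.mul_sum]
  refine Finset.sum_congr rfl fun j _ => ?_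
  rw [mul_smul_comm, mul_left_comm]

end kdl

section lr

variable {ι K : Type} [Field K]

theorem stb_of {T : Type} (a : T → Lr K ι) (S : Finset T) (Q : Set (ι → ℤ))
    (h : ∀ j ∈ S, ∀ m, (a j).coeff m ≠ 0 → ∀ e ∈ Q, e + m ∈ Q) : Stb a S (MS K Q) := by
  classical
  intro j hj g hg m hm
  rw [AddMonoidAlgebra.coeff_mul] at hm
  obtain ⟨m1, h1, h2⟩ := Finset.exists_ne_zero_of_sum_ne_zero hm
  obtain ⟨m2, h3, h4⟩ := Finset.exists_ne_zero_of_sum_ne_zero h2
  have h5 : m1 + m2 = m := by
    by_contra hne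
    simp only [hne, if_false] at h4
    exact h4 rfl
  have h6 : (a j).coeff m1 ≠ 0 := Finsupp.mem_support_iff.1 h1
  have h7 : g.coeff m2 ≠ 0 := Finsupp.mem_support_iff.1 h3
  have h8 := h j hj m1 h6 m2 (hg m2 h7)
  rw [add_comm] at h8
  rw [← h5]
  exact h8

theorem spz_mem [DecidableEq ι] (r : ι) (c : K) (Q : Set (ι → ℤ))
    (hQ : ∀ m ∈ Q, ∀ n : ℤ, Function.update m r n ∈ Q) (h : Lr K ι) (hh : h ∈ MS K Q) :
    spz r c h ∈ MS K (Q ∩ {m | m r = 0}) := by
  intro m hm
  unfold spz at hm
  rw [AddMonoidAlgebra.coeff_ofCoeff, Finsupp.sum, Finsupp.finset_sum_apply] at hm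
  obtain ⟨m1, h1, h2⟩ := Finset.exists_ne_zero_of_sum_ne_zero hm
  have h3 : Function.update m1 r 0 = m := by
    by_contra hne
    rw [Finsupp.single_eq_of_ne' hne] at h2
    exact h2 rfl
  rw [← h3]
  refine ⟨hQ m1 (hh m1 (Finsupp.mem_support_iff.1 h1)) 0, ?_⟩
  show Function.update m1 r 0 r = 0
  rw [Function.update_self]

theorem spz_single [DecidableEq ι] (r : ι) (c : K) (m : ι → ℤ) (b : K) :
    spz r c (AddMonoidAlgebra.single m b : Lr K ι)
      = AddMonoidAlgebra.single (Function.update m r 0) (c ^ (m r) * b) := by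
  unfold spz
  rw [AddMonoidAlgebra.coeff_single, Finsupp.sum_single_index]
  · rw [AddMonoidAlgebra.ofCoeff_single]
    rfl
  · simp

theorem spz_xr [DecidableEq ι] (r : ι) (c : K) : spz r c (xr K r) = cst ι c := by
  unfold xr cst
  rw [spz_single]
  have h1 : Function.update (Pi.single r 1 : ι → ℤ) r 0 = 0 := by
    ext i
    by_cases h : i = r
    · subst h
      simp
    · simp [h]
  rw [h1]
  simp

theorem spz_cst [DecidableEq ι] (r : ι) (c d : K) : spz r c (cst ι d) = cst ι d := by
  unfold cst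
  rw [spz_single]
  have h1 : Function.update (0 : ι → ℤ) r 0 = 0 := by
    ext i
    by_cases h : i = r
    · subst h
      simp
    · simp [h]
  rw [h1]
  simp

end lr

/-- **Row SPI.** -/
theorem spi (ksg : KsgStmt) (sph : SphStmt) : SpiStmt := by
  intro T ι K _ _ r c a S Q i hc hQ ha hex z y hz hy hzy
  classical
  obtain ⟨h1, h2, h3, h4⟩ := sph ι K r
  obtain ⟨⟨φ, hφ⟩, -, -⟩ := h1 K c hc
  obtain ⟨-, -, k3, k4⟩ := ksg T (Lr K ι)
  have hstb : Stb a S (MS K Q) := stb_of a S Q ha
  have hx0 : φ (xr K r - cst ι c) = 0 := by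
    rw [map_sub, hφ, hφ, spz_xr, spz_cst, sub_self]
  -- the image chain
  have hyφ : Chn S (MS K (Q ∩ {m | m r = 0})) (i + 1) (fun U => spz r c (y U)) := by
    intro U
    refine ⟨spz_mem r c Q hQ (y U) (hy U).1, fun hne => ?_⟩
    refine (hy U).2 fun h0 => hne ?_
    show spz r c (y U) = 0
    rw [h0, ← hφ, map_zero]
  have hfun : (fun j => φ (a j)) = fun j => spz r c (a j) := funext fun j => hφ (a j)
  have hfunx : ∀ x : Finset T → Lr K ι, (fun V => φ (x V)) = fun V => spz r c (x V) :=
    fun x => funext fun V => hφ (x V)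
  have hkφ : ∀ (x : Finset T → Lr K ι) (U : Finset T),
      spz r c (kd a S x U) = kd (fun j => spz r c (a j)) S (fun V => spz r c (x V)) U := by
    intro x U
    rw [← hφ, kd_map, hfun, hfunx]
  have hcyc : ∀ U, kd (fun j => spz r c (a j)) S (fun V => spz r c (y V)) U ∈
      (⊥ : AddSubgroup (Lr K ι)) := by
    intro U
    rw [AddSubgroup.mem_bot, ← hkφ, hzy U, ← hφ, map_mul, hx0, zero_mul]
  obtain ⟨w, hw, hwy⟩ := hex _ hyφ hcyc
  have hwr : ∀ U, spz r c (w U) = w U := by
    intro U
    refine h4 c (w U) fun m hm => ?_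
    exact ((hw U).1 m hm).2
  have hwQ : Chn S (MS K Q) (i + 1 + 1) w := by
    intro U
    exact ⟨fun m hm => ((hw U).1 m hm).1, (hw U).2⟩
  have hkw : Chn S (MS K Q) (i + 1) (kd a S w) := k4 a S (MS K Q) (i + 1) w hstb hwQ
  have hdiff : ∀ U, ∃ g ∈ MS K Q, y U - kd a S w U = (xr K r - cst ι c) * g := by
    intro U
    refine h2 c (y U - kd a S w U) Q hc hQ
      ((MS K Q).sub_mem (hy U).1 (hkw U).1) ?_
    rw [← hφ, map_sub, hφ, hφ, hkφ]
    have e1 : (fun V => spz r c (w V)) = w := funext hwr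
    rw [e1]
    exact AddSubgroup.mem_bot.1 (hwy U)
  choose g hg1 hg2 using hdiff
  set y' : Finset T → Lr K ι := fun U => if y U - kd a S w U = 0 then 0 else g U with hy'
  have hy'1 : ∀ U, y U - kd a S w U = (xr K r - cst ι c) * y' U := by
    intro U
    by_cases h : y U - kd a S w U = 0
    · simp only [hy', h, if_true, mul_zero]
    · simp only [hy', h, if_false]
      exact hg2 U
  refine ⟨y', ?_, ?_⟩
  · intro U
    by_cases h : y U - kd a S w U = 0
    · have e : y' U = 0 := by simp only [hy', h, if_true]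
      rw [e]
      exact ⟨(MS K Q).zero_mem, fun hne => absurd rfl hne⟩
    · have e : y' U = g U := by simp only [hy', h, if_false]
      rw [e]
      refine ⟨hg1 U, fun _ => ?_⟩
      by_cases h5 : y U = 0
      · refine (hkw U).2 fun h6 => h ?_
        rw [h5, h6, sub_zero]
      · exact (hy U).2 h5
  · intro U
    have e1 : (xr K r - cst ι c) * kd a S y' U = (xr K r - cst ι c) * z U := by
      rw [← kd_mul_left]
      have e2 : (fun V => (xr K r - cst ι c) * y' V) = fun V => y V - kd a S w V :=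
        funext fun V => (hy'1 V).symm
      rw [e2, kd_sub, hzy U]
      have e3 : kd a S (fun V => kd a S w V) U = 0 := by
        have := congrFun (k3 a S w) U
        exact this
      rw [e3, sub_zero]
    have e4 : (xr K r - cst ι c) * (kd a S y' U - z U) = 0 := by
      rw [mul_sub, e1, sub_self]
    exact sub_eq_zero.1 (h3 c _ e4)

end Pool.Agent.NDR.H94
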